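import Pool.Agent.H435R3.Eol.Deg
import Pool.Agent.H424R7.FT.Asm
import Pool.Agent.H424R7.FT.PSOL
import Pool.Agent.H424R7.FT.SPN
import Pool.Agent.H424R7.FT.ALG
import Pool.Agent.H424R7.FT.SPA

/-!
# End-of-Line for circuits of low degree: the algorithm
-/

set_option autoImplicit false

namespace Pool.Agent.H435R3.Eol

open Pool.Agent.NPC Pool.Agent.H424R2.PPAD Pool.Agent.H547R6 Pool.Agent.H424R7.FT

/-- The function `{0,1}^n → {0,1}^n` computed by the circuit `C`. -/
def fn (n : ℕ) (C : Circ) (x : Fin n → Bool) : Fin n → Bool :=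
  fun i => (C.eval (List.ofFn x)).getD i false

/-- `S(0)` has a bit `1` at some position `i` such that the bit `i` of `S ∘ P` has weak degree at
most `D` over some commutative ring. -/
def LowDeg (D : ℕ) (I : Circ × Circ) : Prop :=
  ∃ i, fn (eolN I) I.1 (zeroF (eolN I)) i = true ∧ ∃ (K : Type) (_ : CommRing K),
    WDegLE K D fun v => fn (eolN I) I.1 (fn (eolN I) I.2 v) i

/-- `LowDeg D` for some `D ≤ c log₂ (n + 1)`. -/
def LogDeg (c : ℕ) (I : Circ × Circ) : Prop := ∃ D, 2 ^ D ≤ (eolN I + 1) ^ c ∧ LowDeg D I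

/-- For some nontrivial commutative ring the output bits of the first circuit have degree at most
`a` and those of the second one degree at most `b`, where `a b ≤ c log₂ (n + 1)`. -/
def DegPair (c : ℕ) (I : Circ × Circ) : Prop :=
  ∃ (K : Type) (_ : CommRing K) (_ : Nontrivial K) (a b : ℕ), 2 ^ (a * b) ≤ (eolN I + 1) ^ c ∧
    (∀ i, DegLE K a fun v => fn (eolN I) I.1 v i) ∧ ∀ i, DegLE K b fun v => fn (eolN I) I.2 v i

/-- The output bits of the circuits are computed by decision trees of depth at most `a` (first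
circuit) and `b` (second circuit), where `a b ≤ c log₂ (n + 1)`. -/
def TreePair (c : ℕ) (I : Circ × Circ) : Prop :=
  ∃ a b : ℕ, 2 ^ (a * b) ≤ (eolN I + 1) ^ c ∧
    (∀ i, ∃ t : DTree (eolN I), t.depth ≤ a ∧ ∀ v, fn (eolN I) I.1 v i = t.eval v) ∧
    ∀ i, ∃ t : DTree (eolN I), t.depth ≤ b ∧ ∀ v, fn (eolN I) I.2 v i = t.eval v

theorem ofFn_fn {n : ℕ} {C : Circ} (hC : C.2.length = n) (x : Fin n → Bool) :
    List.ofFn (fn n C x) = C.eval (List.ofFn x) := by
  have hl : (C.eval (List.ofFn x)).length = n := by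
    unfold Circ.eval
    rw [List.length_map, hC]
  apply List.ext_getElem
  · rw [List.length_ofFn, hl]
  · intro i h1 h2
    rw [List.getElem_ofFn]
    unfold fn
    rw [List.getD_eq_getElem _ _ h2]

theorem zeros_ofFn (n : ℕ) : zeros n = List.ofFn (zeroF n) := by
  apply List.ext_getElem <;> simp [zeros, zeroF]

theorem sol_of {I : Circ × Circ} (h1 : I.1.2.length = eolN I) (h2 : I.2.2.length = eolN I)
    {v : Fin (eolN I) → Bool}
    (hv : Sol (zeroF (eolN I)) (fn (eolN I) I.1) (fn (eolN I) I.2) v) :
    EOL.IsSol I (List.ofFn v) := by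
  refine ⟨List.length_ofFn, ?_⟩
  rcases hv with h | ⟨h, h'⟩
  · left
    intro h3
    apply h
    apply List.ofFn_injective
    rw [ofFn_fn h2, ofFn_fn h1, h3]
  · right
    refine ⟨?_, ?_⟩
    · intro h3
      apply h
      apply List.ofFn_injective
      rw [h3, zeros_ofFn]
    · intro h3
      apply h'
      apply List.ofFn_injective
      rw [ofFn_fn h1, ofFn_fn h2, h3]

/-- all unit strings -/
def units (n : ℕ) : List (List Bool) := (List.range n).map (unitL n)

/-- The candidates: the first `4 |w|` strings, in the order of binary counting. -/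
def cands (p : (Circ × Circ) × List Bool) : List (List Bool) :=
  spanT (eolN p.1) (units (eolN p.1)) (4 * p.2.length)

/-- The algorithm: the first candidate which is a solution. -/
def solve (p : (Circ × Circ) × List Bool) : List Bool :=
  ((cands p).filter (isSolC p.1)).headD []

theorem foldl_len {n M : ℕ} (B : List (List Bool)) : ∀ T : List (List Bool), T.length ≤ M →
    (B.foldl (fun T b => (T ++ T.map (xorL n b)).take M) T).length ≤ M := by
  induction B with
  | nil => intro T hT; exact hT
  | cons b B ih =>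
    intro T _
    rw [List.foldl_cons]
    apply ih
    rw [List.length_take]
    exact min_le_left _ _

theorem foldl_mem {n M : ℕ} (B : List (List Bool)) : ∀ (T : List (List Bool)) (z : List Bool),
    T.length ≤ M → z ∈ T → z ∈ B.foldl (fun T b => (T ++ T.map (xorL n b)).take M) T := by
  induction B with
  | nil => intro T z _ hz; exact hz
  | cons b B ih =>
    intro T z hT hz
    rw [List.foldl_cons]
    apply ih
    · rw [List.length_take]
      exact min_le_left _ _
    · rw [List.take_append, List.take_of_length_le hT]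
      exact List.mem_append_left _ hz

theorem cand_mem {n k M : ℕ} (hk : k ≤ n) (hM : 2 ^ k ≤ M) {z : List Bool} (hz : z.length = n)
    (h : ∀ i, z.getD i false = true → i < k) : z ∈ spanT n (units n) M := by
  have h0 : 1 ≤ M := le_trans Nat.one_le_two_pow hM
  obtain ⟨l, rfl⟩ := Nat.exists_eq_add_of_le hk
  unfold spanT units
  rw [List.range_add, List.map_append, List.foldl_append]
  apply foldl_mem
  · exact foldl_len _ _ (by simpa using h0)
  · refine spn_main (k + l) M (List.range k) [zerosL (k + l)] (fun _ => False) ?_ ?_ z hz ?_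
    · simpa using hM
    · intro y hy hyF
      have : y = zerosL (k + l) := by
        apply spn_ext hy (by simp [zerosL])
        intro i hi
        have h0 : (zerosL (k + l)).getD i false = false := by
          unfold zerosL
          rw [List.getD_eq_getElem _ _ (by simpa using hi)]
          simp
        rw [h0]
        cases hyi : y.getD i false
        · rfl
        · exact absurd hyi fun h => hyF i h
      rw [this]
      exact List.mem_singleton.2 rfl
    · intro i hi
      exact Or.inr (List.mem_range.2 (h i hi))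

theorem getD_ofFn {n : ℕ} (v : Fin n → Bool) {i : ℕ} (h : (List.ofFn v).getD i false = true) :
    ∃ hi : i < n, v ⟨i, hi⟩ = true := by
  have hi : i < n := by
    have := spn_lt_of_getD h
    simpa using this
  refine ⟨hi, ?_⟩
  rwa [List.getD_eq_getElem _ _ (by simpa using hi), List.getElem_ofFn] at h

/-- End-of-Line is total. -/
theorem total {n : ℕ} (S P : (Fin n → Bool) → (Fin n → Bool)) (hP : P (zeroF n) = zeroF n)
    (hS : S (zeroF n) ≠ zeroF n) : ∃ v, P (S v) ≠ v := by
  by_contra hcon
  push Not at hcon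
  have h1 : Function.Injective S := Function.LeftInverse.injective hcon
  obtain ⟨u, hu⟩ := Finite.injective_iff_surjective.1 h1 (zeroF n)
  have h2 : u = zeroF n := by
    rw [← hcon u, hu, hP]
  rw [h2] at hu
  exact hS hu

theorem cands_sol (I : Circ × Circ) (w : List Bool) (D : ℕ) (hv : EOL.Valid I) (hI : LowDeg D I)
    (hw : 2 ^ D ≤ w.length) : ∃ v ∈ cands (I, w), EOL.IsSol I v := by
  classical
  obtain ⟨hl2, hP0, hS0⟩ := hv
  have hl1 : I.1.2.length = eolN I := rfl
  have hP0' : fn (eolN I) I.2 (zeroF (eolN I)) = zeroF (eolN I) := by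
    apply List.ofFn_injective
    rw [ofFn_fn hl2, ← zeros_ofFn, hP0]
  have hS0' : fn (eolN I) I.1 (zeroF (eolN I)) ≠ zeroF (eolN I) := by
    intro h
    apply hS0
    rw [zeros_ofFn, ← ofFn_fn hl1, h]
  have hw4 : 2 ^ (D + 2) ≤ 4 * w.length := by
    rw [pow_add]
    omega
  obtain ⟨i, hi, K, _, hdeg⟩ := hI
  rcases Nat.lt_or_ge (eolN I) (D + 2) with hn | hn
  · obtain ⟨v, hv⟩ := total _ _ hP0' hS0'
    refine ⟨List.ofFn v, ?_, sol_of hl1 hl2 (Or.inl hv)⟩
    refine cand_mem (k := eolN I) le_rfl ?_ List.length_ofFn ?_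
    · exact (Nat.pow_le_pow_right (by norm_num) hn.le).trans hw4
    · intro j hj
      exact (getD_ofFn v hj).1
  · obtain ⟨J, hJ, hJc⟩ : ∃ J ⊆ (Finset.univ.filter fun j : Fin (eolN I) => j.1 < D + 2).erase i,
        J.card = D + 1 := by
      apply Finset.exists_subset_card_eq
      have h1 : (Finset.univ.filter fun j : Fin (eolN I) => j.1 < D + 2).card = D + 2 := by
        have h2 : (Finset.univ.filter fun j : Fin (eolN I) => j.1 < D + 2) =
            Finset.univ.map (Fin.castLEEmb hn) := by
          ext j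
          simp only [Finset.mem_filter, Finset.mem_univ, true_and, Finset.mem_map]
          constructor
          · intro h
            exact ⟨⟨j.1, h⟩, rfl⟩
          · rintro ⟨a, rfl⟩
            exact a.2
        rw [h2, Finset.card_map, Finset.card_univ, Fintype.card_fin]
      have h3 := Finset.pred_card_le_card_erase
        (s := Finset.univ.filter fun j : Fin (eolN I) => j.1 < D + 2) (a := i)
      omega
    obtain ⟨v, hv0, hvJ, hv⟩ := subcube (K := K) (fn (eolN I) I.1) (fn (eolN I) I.2) D i hdeg J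
      (fun h => (Finset.mem_erase.1 (hJ h)).1 rfl) hJc
    refine ⟨List.ofFn v, ?_, sol_of hl1 hl2 (Or.inr ⟨hv0, hv⟩)⟩
    refine cand_mem (k := D + 2) hn hw4 List.length_ofFn ?_
    intro j hj
    obtain ⟨hjn, hj'⟩ := getD_ofFn v hj
    have h4 := hJ (hvJ _ hj')
    exact (Finset.mem_filter.1 (Finset.mem_erase.1 h4).2).2

theorem solve_correct (I : Circ × Circ) (w : List Bool) (D : ℕ) (hv : EOL.Valid I)
    (hI : LowDeg D I) (hw : 2 ^ D ≤ w.length) : EOL.IsSol I (solve (I, w)) := by
  obtain ⟨v, hvc, hvs⟩ := cands_sol I w D hv hI hw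
  have hmem : v ∈ (cands (I, w)).filter (isSolC I) := by
    rw [List.mem_filter]
    exact ⟨hvc, (alg_iff I v).2 hvs⟩
  have hne : (cands (I, w)).filter (isSolC I) ≠ [] := List.ne_nil_of_mem hmem
  obtain ⟨a, l, hal⟩ := List.exists_cons_of_ne_nil hne
  have ha : a ∈ (cands (I, w)).filter (isSolC I) := by
    rw [hal]
    exact List.mem_cons_self
  show EOL.IsSol I (((cands (I, w)).filter (isSolC I)).headD [])
  rw [hal]
  exact (alg_iff I a).1 (List.mem_filter.1 ha).2

theorem poly_cands : Poly cands := by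
  have hn : UPoly (fun p : (Circ × Circ) × List Bool => eolN p.1) :=
    UPoly.length (Poly.snd (Poly.fst (Poly.fst Poly.id)))
  have hL : UPoly (fun p : (Circ × Circ) × List Bool => 4 * p.2.length) :=
    UPoly.mul (UPoly.const 4) (UPoly.length (Poly.snd Poly.id))
  refine psol_span hn ?_ hL
  exact NPC.Poly.map (F := fun (p : (Circ × Circ) × List Bool) i => unitL (eolN p.1) i) hn.range
    (poly_unitL (hn.comp (Poly.fst Poly.id)) (Poly.snd Poly.id))

theorem poly_solve : Poly solve :=
  poly_headD (Poly.filter (p := fun (p : (Circ × Circ) × List Bool) v => isSolC p.1 v) poly_cands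
    psol_isSolC)

theorem ptime_solve : PTime solve := PTime.of_poly poly_solve

theorem solvable_logDeg (c : ℕ) : Solvable (EOLr (LogDeg c)) := by
  refine ⟨fun I => solve (I, zerosL ((eolN I + 1) ^ c)), ?_, ?_⟩
  · have h3 : Poly (fun I : Circ × Circ => solve (I, zerosL ((eolN I + 1) ^ c))) :=
      poly_solve.comp (Poly.pair Poly.id (poly_zerosL (spa_upow c)))
    have h4 : PTime (fun I : Circ × Circ => solve (I, zerosL ((eolN I + 1) ^ c))) :=
      PTime.of_poly h3
    exact h4
  · rintro I ⟨hv, D, hk, hs⟩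
    exact solve_correct I _ D hv hs (by simpa [zerosL] using hk)

theorem degPair_logDeg {c : ℕ} {I : Circ × Circ} (hv : EOL.Valid I) (h : DegPair c I) :
    LogDeg c I := by
  obtain ⟨hl2, hP0, hS0⟩ := hv
  have hl1 : I.1.2.length = eolN I := rfl
  have hP0' : fn (eolN I) I.2 (zeroF (eolN I)) = zeroF (eolN I) := by
    apply List.ofFn_injective
    rw [ofFn_fn hl2, ← zeros_ofFn, hP0]
  have hS0' : ∃ i, fn (eolN I) I.1 (zeroF (eolN I)) i = true := by
    by_contra hcon
    push Not at hcon
    apply hS0
    rw [zeros_ofFn, ← ofFn_fn hl1]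
    congr 1
    funext i
    simpa [zeroF] using hcon i
  obtain ⟨K, _, _, a, b, hab, hS, hP⟩ := h
  obtain ⟨i, hi⟩ := hS0'
  refine ⟨a * b, hab, i, hi, K, inferInstance, ?_⟩
  exact wdeg_comp _ _ a b i hP0' ((hS i).weak hi) hP

theorem solvable_degPair (c : ℕ) : Solvable (EOLr (DegPair c)) := by
  obtain ⟨f, hf, h⟩ := solvable_logDeg c
  exact ⟨f, hf, fun I hI => h I ⟨hI.1, degPair_logDeg hI.1 hI.2⟩⟩

theorem solvable_treePair (c : ℕ) : Solvable (EOLr (TreePair c)) := by
  obtain ⟨f, hf, h⟩ := solvable_degPair c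
  refine ⟨f, hf, fun I hI => h I ⟨hI.1, ?_⟩⟩
  obtain ⟨a, b, hab, hS, hP⟩ := hI.2
  refine ⟨ZMod 2, inferInstance, inferInstance, a, b, hab, fun i => ?_, fun i => ?_⟩
  · obtain ⟨t, ht, ht'⟩ := hS i
    rw [show (fun v => fn (eolN I) I.1 v i) = t.eval from funext ht']
    exact (deg_tree t).mono ht
  · obtain ⟨t, ht, ht'⟩ := hP i
    rw [show (fun v => fn (eolN I) I.2 v i) = t.eval from funext ht']
    exact (deg_tree t).mono ht

end Pool.Agent.H435R3.Eol
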