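import Mathlib

/-!
# End-of-Line for maps of low degree: the combinatorial part
-/

set_option autoImplicit false

namespace Pool.Agent.H435R3.Eol

open Finset MvPolynomial

/-- The point of `K^n` with the coordinates `0`, `1` given by the bit string `x`. -/
def pt (K : Type) [CommRing K] {n : ℕ} (x : Fin n → Bool) : Fin n → K :=
  fun i => if x i then 1 else 0

/-- The Boolean function `f` is represented by a polynomial of degree at most `D` over `K`. -/
def DegLE (K : Type) [CommRing K] {n : ℕ} (D : ℕ) (f : (Fin n → Bool) → Bool) : Prop :=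
  ∃ p : MvPolynomial (Fin n) K, p.totalDegree ≤ D ∧ ∀ x, eval (pt K x) p = if f x then 1 else 0

/-- Some polynomial of degree at most `D` over `K` does not vanish at `0` and vanishes at all
`0`-`1` points where `f` is `false`. -/
def WDegLE (K : Type) [CommRing K] {n : ℕ} (D : ℕ) (f : (Fin n → Bool) → Bool) : Prop :=
  ∃ p : MvPolynomial (Fin n) K, p.totalDegree ≤ D ∧ eval (pt K fun _ => false) p ≠ 0 ∧
    ∀ x, f x = false → eval (pt K x) p = 0

variable {K : Type} [CommRing K] {n : ℕ}

/-- the indicator string of a set of positions -/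
def ind (T : Finset (Fin n)) : Fin n → Bool := fun i => decide (i ∈ T)

theorem ind_empty : (ind (∅ : Finset (Fin n))) = fun _ => false := by
  funext i; simp [ind]

theorem mono_toggle (m : Fin n →₀ ℕ) (c : K) (j : Fin n) (hj : m j = 0) (T : Finset (Fin n)) :
    eval (pt K (ind (insert j T))) (monomial m c) = eval (pt K (ind T)) (monomial m c) := by
  rw [eval_monomial, eval_monomial]
  congr 1
  apply Finsupp.prod_congr
  intro i hi
  have hij : i ≠ j := by
    rintro rfl
    exact (Finsupp.mem_support_iff.1 hi) hj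
  simp [pt, ind, hij]

theorem alt_mono (m : Fin n →₀ ℕ) (c : K) (J : Finset (Fin n)) (j : Fin n) (hjJ : j ∈ J)
    (hj : m j = 0) :
    ∑ T ∈ J.powerset, (-1 : K) ^ T.card * eval (pt K (ind T)) (monomial m c) = 0 := by
  obtain ⟨J', hJ', rfl⟩ : ∃ J' : Finset (Fin n), j ∉ J' ∧ insert j J' = J :=
    ⟨J.erase j, notMem_erase j J, insert_erase hjJ⟩
  rw [Finset.sum_powerset_insert hJ']
  rw [← Finset.sum_add_distrib]
  apply Finset.sum_eq_zero
  intro T hT
  have hjT : j ∉ T := fun h => hJ' (mem_powerset.1 hT h)
  rw [mono_toggle m c j hj T, card_insert_of_notMem hjT, pow_succ]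
  ring

/-- The alternating sum over a subcube of dimension larger than the degree vanishes. -/
theorem alt_sum (p : MvPolynomial (Fin n) K) (J : Finset (Fin n)) (h : p.totalDegree < J.card) :
    ∑ T ∈ J.powerset, (-1 : K) ^ T.card * eval (pt K (ind T)) p = 0 := by
  have e : ∀ T : Finset (Fin n), eval (pt K (ind T)) p =
      ∑ m ∈ p.support, eval (pt K (ind T)) (monomial m (coeff m p)) := by
    intro T
    conv_lhs => rw [p.as_sum]
    rw [map_sum]
  have e2 : ∑ T ∈ J.powerset, (-1 : K) ^ T.card * eval (pt K (ind T)) p =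
      ∑ m ∈ p.support, ∑ T ∈ J.powerset,
        (-1 : K) ^ T.card * eval (pt K (ind T)) (monomial m (coeff m p)) := by
    rw [Finset.sum_comm]
    apply Finset.sum_congr rfl
    intro T _
    rw [e T, Finset.mul_sum]
  rw [e2]
  apply Finset.sum_eq_zero
  intro m hm
  have h1 : (m.sum fun _ e => e) ≤ p.totalDegree := le_totalDegree hm
  have h2 : m.support.card ≤ m.sum fun _ e => e := by
    rw [Finsupp.sum, Finset.card_eq_sum_ones]
    apply Finset.sum_le_sum
    intro i hi
    exact Nat.one_le_iff_ne_zero.2 (Finsupp.mem_support_iff.1 hi)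
  have h3 : ∃ j ∈ J, m j = 0 := by
    by_contra hcon
    push Not at hcon
    have h4 : J ⊆ m.support := fun j hj => Finsupp.mem_support_iff.2 (hcon j hj)
    have h5 := card_le_card h4
    omega
  obtain ⟨j, hjJ, hj⟩ := h3
  exact alt_mono m _ J j hjJ hj

/-- Let `i` be a position with `S(0)_i = 1` such that the bit `i` of `S ∘ P` has weak degree at
most `D` over some commutative ring.  Then each set `J` of `D + 1` other positions contains the
support of a nonzero string `v` with `S(P(v)) ≠ v`. -/
theorem subcube (S P : (Fin n → Bool) → (Fin n → Bool)) (D : ℕ) (i : Fin n)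
    (hw : WDegLE K D fun v => S (P v) i) (J : Finset (Fin n)) (hi : i ∉ J)
    (hJ : J.card = D + 1) :
    ∃ v : Fin n → Bool, v ≠ (fun _ => false) ∧ (∀ j, v j = true → j ∈ J) ∧ S (P v) ≠ v := by
  classical
  obtain ⟨p, hp, h0, hz⟩ := hw
  by_contra hcon
  push Not at hcon
  have h1 := alt_sum p J (by omega)
  rw [Finset.sum_eq_single (∅ : Finset (Fin n))] at h1
  · rw [ind_empty, card_empty, pow_zero, one_mul] at h1
    exact h0 h1
  · intro T hT hne
    have hT' := mem_powerset.1 hT
    have h2 : S (P (ind T)) = ind T := by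
      apply hcon
      · intro h
        obtain ⟨t, ht⟩ := Finset.nonempty_iff_ne_empty.2 hne
        have := congrFun h t
        simp [ind, ht] at this
      · intro j hj
        have : j ∈ T := by simpa [ind] using hj
        exact hT' this
    have h3 : S (P (ind T)) i = false := by
      rw [h2]
      have : i ∉ T := fun h => hi (hT' h)
      simp [ind, this]
    rw [hz _ h3, mul_zero]
  · intro h
    exact absurd (Finset.empty_mem_powerset J) h

theorem totalDegree_bind {m : ℕ} (p : MvPolynomial (Fin m) K) (q : Fin m → MvPolynomial (Fin n) K)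
    (a b : ℕ) (hp : p.totalDegree ≤ a) (hq : ∀ j, (q j).totalDegree ≤ b) :
    (bind₁ q p).totalDegree ≤ a * b := by
  have e : bind₁ q p = ∑ m ∈ p.support, C (coeff m p) * ∏ j ∈ m.support, q j ^ m j := by
    conv_lhs => rw [p.as_sum]
    rw [map_sum]
    apply Finset.sum_congr rfl
    intro m _
    rw [bind₁_monomial]
  rw [e]
  apply totalDegree_finsetSum_le
  intro m hm
  refine (totalDegree_mul _ _).trans ?_
  rw [totalDegree_C, zero_add]
  refine (totalDegree_finsetProd _ _).trans ?_
  have h1 : (m.sum fun _ e => e) ≤ p.totalDegree := le_totalDegree hm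
  calc ∑ j ∈ m.support, (q j ^ m j).totalDegree ≤ ∑ j ∈ m.support, m j * b := by
        apply Finset.sum_le_sum
        intro j _
        exact (totalDegree_pow _ _).trans (Nat.mul_le_mul_left _ (hq j))
    _ = (m.sum fun _ e => e) * b := by rw [← Finset.sum_mul]; rfl
    _ ≤ a * b := Nat.mul_le_mul_right _ (h1.trans hp)

/-- Degrees multiply under composition. -/
theorem wdeg_comp (S P : (Fin n → Bool) → (Fin n → Bool)) (a b : ℕ) (i : Fin n)
    (hP0 : P (fun _ => false) = fun _ => false)
    (hS : WDegLE K a fun v => S v i) (hP : ∀ j, DegLE K b fun v => P v j) :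
    WDegLE K (a * b) fun v => S (P v) i := by
  obtain ⟨p, hp, h0, hz⟩ := hS
  choose q hq hq' using hP
  have e : ∀ x, eval (pt K x) (bind₁ q p) = eval (pt K (P x)) p := by
    intro x
    rw [eval, eval₂Hom_bind₁]
    congr 1
    congr 1
    funext j
    exact hq' j x
  refine ⟨bind₁ q p, totalDegree_bind p q a b hp hq, ?_, ?_⟩
  · rw [e, hP0]
    exact h0
  · intro x hx
    rw [e]
    exact hz _ hx

theorem DegLE.weak [Nontrivial K] {D : ℕ} {f : (Fin n → Bool) → Bool} (h : DegLE K D f)
    (h0 : f (fun _ => false) = true) : WDegLE K D f := by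
  obtain ⟨p, hp, hx⟩ := h
  refine ⟨p, hp, ?_, ?_⟩
  · rw [hx, h0]
    simp
  · intro x hf
    rw [hx, hf]
    simp

/-- Decision trees: a leaf with a value, or a question for the bit `i`, with the subtrees for the
answers `false` and `true`. -/
inductive DTree (n : ℕ) : Type
  | leaf : Bool → DTree n
  | node : Fin n → DTree n → DTree n → DTree n

/-- The value of the tree at `x`. -/
def DTree.eval {n : ℕ} : DTree n → (Fin n → Bool) → Bool
  | .leaf b, _ => b
  | .node i s t, x => if x i then t.eval x else s.eval x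

/-- The depth of the tree. -/
def DTree.depth {n : ℕ} : DTree n → ℕ
  | .leaf _ => 0
  | .node _ s t => max s.depth t.depth + 1

/-- The degree is at most the depth of a decision tree. -/
theorem deg_tree (t : DTree n) : DegLE K t.depth t.eval := by
  induction t with
  | leaf b =>
    refine ⟨C (if b then 1 else 0), by rw [totalDegree_C]; exact Nat.zero_le _, fun x => ?_⟩
    rw [eval_C]
    rfl
  | node i s t hs ht =>
    obtain ⟨p, hp, hp'⟩ := hs
    obtain ⟨q, hq, hq'⟩ := ht
    have hX : (X i : MvPolynomial (Fin n) K).totalDegree ≤ 1 := by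
      refine (totalDegree_monomial_le _ _).trans ?_
      simp [Finsupp.sum_single_index]
    refine ⟨(1 - X i) * p + X i * q, ?_, fun x => ?_⟩
    · show _ ≤ max s.depth t.depth + 1
      refine (totalDegree_add _ _).trans (max_le ?_ ?_)
      · refine (totalDegree_mul _ _).trans ?_
        have h1 : (1 - X i : MvPolynomial (Fin n) K).totalDegree ≤ 1 := by
          refine (totalDegree_sub _ _).trans (max_le ?_ hX)
          rw [totalDegree_one]
          exact Nat.zero_le _
        have := le_max_left s.depth t.depth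
        omega
      · refine (totalDegree_mul _ _).trans ?_
        have := le_max_right s.depth t.depth
        omega
    · simp only [map_add, map_mul, map_sub, map_one, eval_X, hp', hq']
      show _ = if (if x i then t.eval x else s.eval x) then (1 : K) else 0
      cases hx : x i <;> simp [pt, hx]

theorem DegLE.mono {D D' : ℕ} {f : (Fin n → Bool) → Bool} (h : DegLE K D f) (hD : D ≤ D') :
    DegLE K D' f := by
  obtain ⟨p, hp, h⟩ := h
  exact ⟨p, hp.trans hD, h⟩

/-- The function `f` on `F₂^n` is given by a polynomial of degree at most `D`. -/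
def PDegLE {n : ℕ} (D : ℕ) (f : (Fin n → ZMod 2) → ZMod 2) : Prop :=
  ∃ p : MvPolynomial (Fin n) (ZMod 2), p.totalDegree ≤ D ∧ ∀ x, eval x p = f x

/-- If `S ∘ P` is given by polynomials of degree at most `D` over `F₂`, where `D ≥ 1`, then each
subspace of dimension larger than `D` contains a vector `v ≠ 0` with `S(P(v)) ≠ v`. -/
theorem subspace (S P : (Fin n → ZMod 2) → (Fin n → ZMod 2)) (D : ℕ) (hD : 1 ≤ D)
    (hP0 : P 0 = 0) (hS0 : S 0 ≠ 0) (hdeg : ∀ i, PDegLE D fun v => S (P v) i)
    (U : Submodule (ZMod 2) (Fin n → ZMod 2)) (hU : D < Module.finrank (ZMod 2) U) :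
    ∃ v ∈ U, v ≠ 0 ∧ S (P v) ≠ v := by
  classical
  by_contra hcon
  push Not at hcon
  set r := Module.finrank (ZMod 2) U with hr
  let e : (Fin r → ZMod 2) ≃ₗ[ZMod 2] U := (Module.finBasis (ZMod 2) U).equivFun.symm
  let L : (Fin r → ZMod 2) →ₗ[ZMod 2] (Fin n → ZMod 2) := U.subtype.comp e.toLinearMap
  let ℓ : Fin n → MvPolynomial (Fin r) (ZMod 2) := fun j => ∑ k, C (L (Pi.single k 1) j) * X k
  have hℓ : ∀ x j, eval x (ℓ j) = L x j := by
    intro x j
    have h1 := LinearMap.pi_apply_eq_sum_univ L x
    rw [h1]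
    simp only [ℓ, map_sum, map_mul, eval_C, eval_X, Finset.sum_apply, Pi.smul_apply, smul_eq_mul]
    apply Finset.sum_congr rfl
    intro k _
    have h2 : (Pi.single k 1 : Fin r → ZMod 2) = fun t => if k = t then 1 else 0 := by
      funext t
      simp [Pi.single_apply, eq_comm]
    rw [mul_comm, h2]
  have hℓd : ∀ j, (ℓ j).totalDegree ≤ 1 := by
    intro j
    apply totalDegree_finsetSum_le
    intro k _
    refine (totalDegree_mul _ _).trans ?_
    rw [totalDegree_C, totalDegree_X]
  apply hS0
  funext i
  obtain ⟨p, hp, hp'⟩ := hdeg i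
  have hpd : (p - X i).totalDegree ≤ D :=
    (totalDegree_sub _ _).trans (max_le hp (by rw [totalDegree_X]; exact hD))
  have hq : (bind₁ ℓ (p - X i)).totalDegree ≤ D * 1 := totalDegree_bind _ ℓ D 1 hpd hℓd
  have hsum := MvPolynomial.sum_eval_eq_zero (K := ZMod 2) (bind₁ ℓ (p - X i)) (by
    rw [ZMod.card, Fintype.card_fin]
    omega)
  have hev : ∀ x, eval x (bind₁ ℓ (p - X i)) = S (P (L x)) i - L x i := by
    intro x
    have h1 : eval x (bind₁ ℓ (p - X i)) = eval (L x) (p - X i) := by
      conv_lhs => rw [eval, eval₂Hom_bind₁]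
      conv_rhs => rw [eval]
      congr 2
      funext j
      exact hℓ x j
    rw [h1, map_sub, eval_X, hp']
  rw [Finset.sum_eq_single (0 : Fin r → ZMod 2)] at hsum
  · rw [hev, map_zero, hP0] at hsum
    simpa using hsum
  · intro x _ hx
    rw [hev]
    have h2 : L x ∈ U := (e x).2
    have h3 : L x ≠ 0 := by
      intro h
      apply hx
      have h4 : e x = 0 := Subtype.ext h
      exact (LinearEquiv.map_eq_zero_iff e).1 h4
    rw [hcon _ h2 h3, sub_self]
  · intro h
    exact absurd (Finset.mem_univ _) h

end Pool.Agent.H435R3.Eol
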