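import Pool.Agent.H435R3.Eol.Deg

/-!
# End-of-Line for maps of low degree: a lower bound for query algorithms
-/

set_option autoImplicit false

namespace Pool.Agent.H435R3.Eol

open Finset MvPolynomial

/-- A deterministic query algorithm: it either outputs a point or asks for the values of `S` and
`P` at a point and goes on depending on the answer. -/
inductive Alg (X : Type) : Type
  | out : X → Alg X
  | ask : X → (X × X → Alg X) → Alg X

/-- The output of the algorithm on the instance `S`, `P`. -/
def Alg.run {X : Type} (S P : X → X) : Alg X → X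
  | .out v => v
  | .ask v k => Alg.run S P (k (S v, P v))

/-- The algorithm asks at most `q` questions. -/
def Alg.Within {X : Type} : ℕ → Alg X → Prop
  | _, .out _ => True
  | 0, .ask _ _ => False
  | q + 1, .ask _ k => ∀ a, Alg.Within q (k a)

abbrev V (n : ℕ) := Fin n → ZMod 2

theorem z2 : ∀ x : ZMod 2, x ≠ 0 → x = 1 := by decide

theorem vadd {n : ℕ} (x : V n) : x + x = 0 := by
  funext i
  have : ∀ a : ZMod 2, a + a = 0 := by decide
  exact this (x i)

/-- the linear map with the values `s j` at the unit vectors -/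
def lam {D E : ℕ} (s : Fin E → V D) (z : V E) : V D := ∑ j, z j • s j

theorem lam_zero {D E : ℕ} (s : Fin E → V D) : lam s 0 = 0 := by simp [lam]

/-- the map `F` acting in the fibres, shifted by `lam s` -/
def lift {D E : ℕ} (F : V D → V D) (s : Fin E → V D) (v : V (D + E)) : V (D + E) :=
  Fin.append (F ((fun i => v (Fin.castAdd E i)) + lam s fun j => v (Fin.natAdd D j)) +
    lam s fun j => v (Fin.natAdd D j)) fun j => v (Fin.natAdd D j)

theorem lift_append {D E : ℕ} (F : V D → V D) (s : Fin E → V D) (y : V D) (z : V E) :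
    lift F s (Fin.append y z) = Fin.append (F (y + lam s z) + lam s z) z := by
  unfold lift
  simp only [Fin.append_left, Fin.append_right]

theorem exists_append {D E : ℕ} (v : V (D + E)) : ∃ (y : V D) (z : V E), v = Fin.append y z :=
  ⟨fun i => v (Fin.castAdd E i), fun j => v (Fin.natAdd D j), (Fin.append_castAdd_natAdd).symm⟩

theorem lift_lift {D E : ℕ} (F G : V D → V D) (s : Fin E → V D) (v : V (D + E)) :
    lift F s (lift G s v) = lift (fun b => F (G b)) s v := by
  obtain ⟨y, z, rfl⟩ := exists_append v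
  rw [lift_append, lift_append, lift_append, add_assoc, vadd, add_zero]

theorem append_inj {D E : ℕ} {y y' : V D} {z : V E} (h : Fin.append y z = Fin.append y' z) :
    y = y' := by
  funext i
  have := congrFun h (Fin.castAdd E i)
  simpa only [Fin.append_left] using this

theorem lift_eq_self {D E : ℕ} (F : V D → V D) (s : Fin E → V D) (y : V D) (z : V E) :
    lift F s (Fin.append y z) = Fin.append y z ↔ F (y + lam s z) = y + lam s z := by
  rw [lift_append]
  constructor
  · intro h
    have h1 := append_inj h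
    calc F (y + lam s z) = (F (y + lam s z) + lam s z) + lam s z := by
          rw [add_assoc, vadd, add_zero]
      _ = y + lam s z := by rw [h1]
  · intro h
    rw [h, add_assoc, vadd, add_zero]

theorem append_zero {D E : ℕ} : (Fin.append (0 : V D) (0 : V E)) = 0 := by
  funext i
  refine Fin.addCases (fun i => ?_) (fun i => ?_) i
  · simp [Fin.append_left]
  · simp [Fin.append_right]

/-- `v` is a solution of the End-of-Line instance `S`, `P`. -/
def IsSolution {X : Type} (o : X) (S P : X → X) (v : X) : Prop :=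
  P (S v) ≠ v ∨ (v ≠ o ∧ S (P v) ≠ v)

theorem not_sol {D E : ℕ} {S P : V D → V D} {s : Fin E → V D} {y : V D} {z : V E}
    (h1 : P (S (y + lam s z)) = y + lam s z)
    (h2 : S (P (y + lam s z)) = y + lam s z ∨ Fin.append y z = 0) :
    ¬ IsSolution 0 (lift S s) (lift P s) (Fin.append y z) := by
  rintro (h | ⟨h, h'⟩)
  · apply h
    rw [lift_lift, lift_eq_self]
    exact h1
  · rcases h2 with h2 | h2
    · apply h'
      rw [lift_lift, lift_eq_self]
      exact h2
    · exact h h2

/-- choice of the shifts -/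
theorem exists_shift {D : ℕ} (M : Finset (V D)) : ∀ (E : ℕ) (I : Finset (V D × V E)),
    I.card * M.card < 2 ^ D → ∃ s : Fin E → V D, ∀ p ∈ I, p.2 ≠ 0 → p.1 + lam s p.2 ∉ M := by
  classical
  intro E
  induction E with
  | zero =>
    intro I _
    exact ⟨Fin.elim0, fun p _ hp => absurd (Subsingleton.elim _ _) hp⟩
  | succ E ih =>
    intro I hI
    obtain ⟨s₀, hs₀⟩ := ih ((I.filter fun p => p.2 (Fin.last E) = 0).image
      fun p => (p.1, fun j => p.2 (Fin.castSucc j))) (by
        refine lt_of_le_of_lt ?_ hI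
        exact Nat.mul_le_mul_right _ (card_image_le.trans (card_filter_le _ _)))
    have hbad : ((I ×ˢ M).image fun x : (V D × V (E + 1)) × V D =>
        x.2 + (x.1.1 + ∑ j : Fin E, x.1.2 (Fin.castSucc j) • s₀ j)).card <
        (Finset.univ : Finset (V D)).card := by
      refine lt_of_le_of_lt card_image_le ?_
      rw [card_product, card_univ, Fintype.card_fun, ZMod.card, Fintype.card_fin]
      exact hI
    obtain ⟨t, -, ht⟩ := exists_mem_notMem_of_card_lt_card hbad
    refine ⟨Fin.snoc s₀ t, fun p hp hp0 hM => ?_⟩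
    have e : lam (Fin.snoc s₀ t : Fin (E + 1) → V D) p.2 =
        (∑ j : Fin E, p.2 (Fin.castSucc j) • s₀ j) + p.2 (Fin.last E) • t := by
      unfold lam
      rw [Fin.sum_univ_castSucc]
      simp only [Fin.snoc_castSucc, Fin.snoc_last]
    by_cases hl : p.2 (Fin.last E) = 0
    · rw [e, hl, zero_smul, add_zero] at hM
      refine hs₀ (p.1, fun j => p.2 (Fin.castSucc j)) ?_ ?_ hM
      · exact mem_image.2 ⟨p, mem_filter.2 ⟨hp, hl⟩, rfl⟩
      · intro h
        apply hp0
        funext j
        refine Fin.lastCases hl (fun j => ?_) j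
        exact congrFun h j
    · rw [e, z2 _ hl, one_smul] at hM
      apply ht
      refine mem_image.2 ⟨(p, _), mem_product.2 ⟨hp, hM⟩, ?_⟩
      show p.1 + (_ + t) + (p.1 + _) = t
      rw [← add_assoc, add_right_comm, ← add_assoc]
      have := vadd (p.1 + ∑ j : Fin E, p.2 (Fin.castSucc j) • s₀ j)
      rw [← add_assoc] at this
      calc _ = (p.1 + (∑ j : Fin E, p.2 (Fin.castSucc j) • s₀ j) +
            (p.1 + ∑ j : Fin E, p.2 (Fin.castSucc j) • s₀ j)) + t := by abel
        _ = t := by rw [vadd, zero_add]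

/-- a state of the adversary -/
structure St (D E : ℕ) where
  S : V D → V D
  P : V D → V D
  c : V D
  M : Finset (V D)
  I : Finset (V D × V E)

structure Inv {D E : ℕ} (σ : St D E) : Prop where
  P0 : σ.P 0 = 0
  S0 : σ.S 0 ≠ 0
  zM : 0 ∈ σ.M
  cM : σ.c ∈ σ.M
  c0 : σ.c ≠ 0
  out : ∀ b, b ∉ σ.M → σ.S b = b ∧ σ.P b = b
  Sc : σ.S σ.c = σ.c
  Pc : σ.P σ.c ≠ σ.c
  PS : ∀ b, b ≠ σ.c → σ.P (σ.S b) = b
  SP : ∀ b, b ≠ 0 → σ.S (σ.P b) = b
  IM : ∀ p ∈ σ.I, p.2 = 0 → p.1 ∉ σ.M

structure Ext {D E : ℕ} (σ τ : St D E) : Prop where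
  I : σ.I ⊆ τ.I
  M : σ.M ⊆ τ.M
  S : ∀ b ∈ σ.M, b ≠ σ.c → τ.S b = σ.S b ∧ b ≠ τ.c
  P : ∀ b ∈ σ.M, τ.P b = σ.P b

theorem Ext.refl {D E : ℕ} (σ : St D E) : Ext σ σ :=
  ⟨fun _ h => h, fun _ h => h, fun _ _ h => ⟨rfl, h⟩, fun _ _ => rfl⟩

theorem Ext.trans {D E : ℕ} {σ τ ρ : St D E} (h : Ext σ τ) (h' : Ext τ ρ) : Ext σ ρ :=
  ⟨h.I.trans h'.I, h.M.trans h'.M,
    fun b hb hc => ⟨((h'.S b (h.M hb) (h.S b hb hc).2).1).trans (h.S b hb hc).1,
      (h'.S b (h.M hb) (h.S b hb hc).2).2⟩,
    fun b hb => (h'.P b (h.M hb)).trans (h.P b hb)⟩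

/-- the state is compatible with the shifts -/
def Fits {D E : ℕ} (σ : St D E) (s : Fin E → V D) : Prop := ∀ p ∈ σ.I, p.1 + lam s p.2 ∉ σ.M

/-- the instance of a state and shifts -/
abbrev iS {D E : ℕ} (σ : St D E) (s : Fin E → V D) : V (D + E) → V (D + E) := lift σ.S s
/-- the instance of a state and shifts -/
abbrev iP {D E : ℕ} (σ : St D E) (s : Fin E → V D) : V (D + E) → V (D + E) := lift σ.P s

theorem step {D E : ℕ} (σ : St D E) (hσ : Inv σ) (v : V (D + E))
    (h : σ.M.card + σ.I.card < 2 ^ D) :
    ∃ (τ : St D E) (a : V (D + E) × V (D + E)), Inv τ ∧ Ext σ τ ∧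
      τ.M.card + τ.I.card ≤ σ.M.card + σ.I.card + 1 ∧
      ∀ (ρ : St D E) (s : Fin E → V D), Inv ρ → Ext τ ρ → Fits ρ s →
        (iS ρ s v, iP ρ s v) = a ∧ ¬ IsSolution 0 (iS ρ s) (iP ρ s) v := by
  classical
  obtain ⟨y, z, rfl⟩ := exists_append v
  by_cases hz : z = 0
  · subst hz
    by_cases hy : y ∈ σ.M
    · by_cases hc : y = σ.c
      · -- the end of the path is asked
        obtain ⟨w, hw⟩ : ∃ w, w ∉ σ.M ∪ σ.I.image Prod.fst := by
          by_contra hcon
          push Not at hcon
          have h1 : (Finset.univ : Finset (V D)) ⊆ σ.M ∪ σ.I.image Prod.fst := fun w _ => hcon w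
          have h2 := card_le_card h1
          rw [card_univ, Fintype.card_fun, ZMod.card, Fintype.card_fin] at h2
          have h3 := card_union_le σ.M (σ.I.image Prod.fst)
          have h4 : (σ.I.image Prod.fst).card ≤ σ.I.card := card_image_le
          omega
        rw [mem_union, not_or] at hw
        obtain ⟨hwM, hwI⟩ := hw
        have hwc : w ≠ σ.c := fun h => hwM (h ▸ hσ.cM)
        have hw0 : w ≠ 0 := fun h => hwM (h ▸ hσ.zM)
        let τ : St D E :=
          { S := Function.update σ.S σ.c w
            P := Function.update σ.P w σ.c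
            c := w
            M := insert w σ.M
            I := σ.I }
        have hSc : τ.S σ.c = w := Function.update_self _ _ _
        have hSn : ∀ b, b ≠ σ.c → τ.S b = σ.S b := fun b hb => Function.update_of_ne hb _ _
        have hPw : τ.P w = σ.c := Function.update_self _ _ _
        have hPn : ∀ b, b ≠ w → τ.P b = σ.P b := fun b hb => Function.update_of_ne hb _ _
        have hτ : Inv τ := by
          refine ⟨?_, ?_, mem_insert_of_mem hσ.zM, mem_insert_self _ _, hw0, ?_, ?_, ?_, ?_, ?_, ?_⟩
          · rw [hPn 0 hw0.symm]; exact hσ.P0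
          · rw [hSn 0 hσ.c0.symm]; exact hσ.S0
          · intro b hb
            have hb' : b ≠ w ∧ b ∉ σ.M := by
              simpa [τ, mem_insert, not_or] using hb
            have hbc : b ≠ σ.c := fun h => hb'.2 (h ▸ hσ.cM)
            rw [hSn b hbc, hPn b hb'.1]
            exact hσ.out b hb'.2
          · show τ.S w = w
            rw [hSn w hwc]
            exact (hσ.out w hwM).1
          · show τ.P w ≠ w
            rw [hPw]
            exact hwc.symm
          · intro b hb
            have hb' : b ≠ w := hb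
            by_cases hbc : b = σ.c
            · rw [hbc, hSc, hPw]
            · have h1 : σ.S b ≠ w := by
                intro h1
                apply hb'
                have h2 := hσ.PS b hbc
                rw [h1, (hσ.out w hwM).2] at h2
                exact h2.symm
              rw [hSn b hbc, hPn _ h1]
              exact hσ.PS b hbc
          · intro b hb
            by_cases hbw : b = w
            · rw [hbw, hPw, hSc]
            · have h1 : σ.P b ≠ σ.c := by
                intro h1
                have h2 := hσ.SP b hb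
                rw [h1, hσ.Sc] at h2
                exact hσ.Pc (by rw [← h2] at h1; exact h1)
              rw [hPn b hbw, hSn _ h1]
              exact hσ.SP b hb
          · intro p hp hp2 hpM
            rcases mem_insert.1 hpM with h1 | h1
            · exact hwI (mem_image.2 ⟨p, hp, h1⟩)
            · exact hσ.IM p hp hp2 h1
        have hext : Ext σ τ := by
          refine ⟨fun _ h => h, subset_insert _ _, ?_, ?_⟩
          · intro b hb hbc
            refine ⟨hSn b hbc, fun h => ?_⟩
            have h' : b = w := h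
            exact hwM (h' ▸ hb)
          · intro b hb
            exact hPn b fun h => hwM (h ▸ hb)
        refine ⟨τ, (Fin.append w 0, Fin.append (σ.P y) 0), hτ, hext, ?_, ?_⟩
        · have : τ.M.card = σ.M.card + 1 := card_insert_of_notMem hwM
          show τ.M.card + σ.I.card ≤ _
          omega
        · intro ρ s hρ hτρ _
          have hyτ : y ∈ τ.M := mem_insert_of_mem hy
          have hyc : y ≠ τ.c := by
            intro h
            have h' : y = w := h
            exact hwM (h' ▸ hy)
          have h1 := hτρ.S y hyτ hyc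
          have h2 := hτρ.P y hyτ
          have h3 : ρ.S y = w := by rw [h1.1, hc, hSc]
          have h4 : ρ.P y = σ.P y := by rw [h2, hPn y fun h => hwM (h ▸ hy)]
          refine ⟨?_, ?_⟩
          · show (lift ρ.S s _, lift ρ.P s _) = _
            rw [lift_append, lift_append, lam_zero, add_zero, add_zero, add_zero, h3, h4]
          · apply not_sol
            · rw [lam_zero, add_zero]
              exact hρ.PS y h1.2
            · left
              rw [lam_zero, add_zero]
              exact hρ.SP y (hc ▸ hσ.c0)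
      · -- a known point of the path
        refine ⟨σ, (Fin.append (σ.S y) 0, Fin.append (σ.P y) 0), hσ, Ext.refl σ, by omega, ?_⟩
        intro ρ s hρ hτρ _
        have h1 := hτρ.S y hy hc
        have h2 := hτρ.P y hy
        refine ⟨?_, ?_⟩
        · show (lift ρ.S s _, lift ρ.P s _) = _
          rw [lift_append, lift_append, lam_zero, add_zero, add_zero, add_zero, h1.1, h2]
        · apply not_sol
          · rw [lam_zero, add_zero]
            exact hρ.PS y h1.2
          · by_cases hy0 : y = 0
            · right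
              rw [hy0]
              exact append_zero
            · left
              rw [lam_zero, add_zero]
              exact hρ.SP y hy0
    · -- a new point of the fibre zero
      let τ : St D E := { σ with I := insert (y, 0) σ.I }
      have hτ : Inv τ := by
        refine ⟨hσ.P0, hσ.S0, hσ.zM, hσ.cM, hσ.c0, hσ.out, hσ.Sc, hσ.Pc, hσ.PS, hσ.SP, ?_⟩
        intro p hp hp2
        rcases mem_insert.1 hp with h1 | h1
        · rw [h1]; exact hy
        · exact hσ.IM p h1 hp2
      refine ⟨τ, (Fin.append y 0, Fin.append y 0), hτ,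
        ⟨subset_insert _ _, fun _ h => h, fun _ _ h => ⟨rfl, h⟩, fun _ _ => rfl⟩, ?_, ?_⟩
      · have : τ.I.card ≤ σ.I.card + 1 := card_insert_le _ _
        show σ.M.card + τ.I.card ≤ _
        omega
      · intro ρ s hρ hτρ hs
        have h1 := hs (y, 0) (hτρ.I (mem_insert_self _ _))
        have h2 := hρ.out _ h1
        refine ⟨?_, ?_⟩
        · rw [Prod.mk.injEq]
          exact ⟨(lift_eq_self _ _ _ _).2 h2.1, (lift_eq_self _ _ _ _).2 h2.2⟩
        · apply not_sol
          · have := h2.1; simp only at this ⊢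
            rw [h2.1, h2.2]
          · left
            rw [h2.2, h2.1]
  · -- a point of another fibre
    let τ : St D E := { σ with I := insert (y, z) σ.I }
    have hτ : Inv τ := by
      refine ⟨hσ.P0, hσ.S0, hσ.zM, hσ.cM, hσ.c0, hσ.out, hσ.Sc, hσ.Pc, hσ.PS, hσ.SP, ?_⟩
      intro p hp hp2
      rcases mem_insert.1 hp with h1 | h1
      · rw [h1] at hp2; exact absurd hp2 hz
      · exact hσ.IM p h1 hp2
    refine ⟨τ, (Fin.append y z, Fin.append y z), hτ,
      ⟨subset_insert _ _, fun _ h => h, fun _ _ h => ⟨rfl, h⟩, fun _ _ => rfl⟩, ?_, ?_⟩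
    · have : τ.I.card ≤ σ.I.card + 1 := card_insert_le _ _
      show σ.M.card + τ.I.card ≤ _
      omega
    · intro ρ s hρ hτρ hs
      have h1 := hs (y, z) (hτρ.I (mem_insert_self _ _))
      have h2 := hρ.out _ h1
      refine ⟨?_, ?_⟩
      · rw [Prod.mk.injEq]
        exact ⟨(lift_eq_self _ _ _ _).2 h2.1, (lift_eq_self _ _ _ _).2 h2.2⟩
      · apply not_sol
        · rw [h2.1, h2.2]
        · left
          rw [h2.2, h2.1]

theorem finish {D E : ℕ} (τ : St D E) (hτ : Inv τ)
    (h : (τ.M.card + τ.I.card) ^ 2 < 4 * 2 ^ D) : ∃ s : Fin E → V D, Fits τ s := by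
  obtain ⟨s, hs⟩ := exists_shift τ.M E τ.I (by
    have : 4 * (τ.I.card * τ.M.card) ≤ (τ.M.card + τ.I.card) ^ 2 := by
      have h1 := Nat.mul_self_le_mul_self (le_refl τ.M.card)
      rcases Nat.le_total τ.M.card τ.I.card with h2 | h2
      · obtain ⟨d, hd⟩ := Nat.exists_eq_add_of_le h2
        rw [hd]
        nlinarith [Nat.zero_le (d * d)]
      · obtain ⟨d, hd⟩ := Nat.exists_eq_add_of_le h2
        rw [hd]
        nlinarith [Nat.zero_le (d * d)]
    omega)
  refine ⟨s, fun p hp => ?_⟩
  by_cases h2 : p.2 = 0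
  · rw [h2, lam_zero, add_zero]
    exact hτ.IM p hp h2
  · exact hs p hp h2

theorem play {D E : ℕ} : ∀ (q : ℕ) (A : Alg (V (D + E))), A.Within q → ∀ σ : St D E, Inv σ →
    σ.M.card + σ.I.card + q + 1 ≤ 2 ^ D → (σ.M.card + σ.I.card + q + 1) ^ 2 < 4 * 2 ^ D →
    ∃ (ρ : St D E) (s : Fin E → V D), Inv ρ ∧ Ext σ ρ ∧ Fits ρ s ∧
      ¬ IsSolution 0 (iS ρ s) (iP ρ s) (A.run (iS ρ s) (iP ρ s)) := by
  have hout : ∀ (q : ℕ) (v : V (D + E)) (σ : St D E), Inv σ →
      σ.M.card + σ.I.card + q + 1 ≤ 2 ^ D → (σ.M.card + σ.I.card + q + 1) ^ 2 < 4 * 2 ^ D →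
      ∃ (ρ : St D E) (s : Fin E → V D), Inv ρ ∧ Ext σ ρ ∧ Fits ρ s ∧
        ¬ IsSolution 0 (iS ρ s) (iP ρ s) v := by
    intro q v σ hσ h1 h2
    obtain ⟨τ, a, hτ, hext, hcard, hall⟩ := step σ hσ v (by omega)
    obtain ⟨s, hs⟩ := finish τ hτ (by
      refine lt_of_le_of_lt (Nat.pow_le_pow_left ?_ 2) h2
      omega)
    exact ⟨τ, s, hτ, hext, hs, (hall τ s hτ (Ext.refl τ) hs).2⟩
  intro q
  induction q with
  | zero =>
    intro A hA σ hσ h1 h2
    cases A with
    | out v => exact hout 0 v σ hσ h1 h2
    | ask v k => exact absurd hA (by simp [Alg.Within])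
  | succ q ih =>
    intro A hA σ hσ h1 h2
    cases A with
    | out v => exact hout (q + 1) v σ hσ h1 h2
    | ask v k =>
      obtain ⟨τ, a, hτ, hext, hcard, hall⟩ := step σ hσ v (by omega)
      obtain ⟨ρ, s, hρ, hτρ, hs, hn⟩ := ih (k a) (hA a) τ hτ (by omega) (by
        refine lt_of_le_of_lt (Nat.pow_le_pow_left ?_ 2) h2
        omega)
      refine ⟨ρ, s, hρ, hext.trans hτρ, hs, ?_⟩
      have h3 := (hall ρ s hρ hτρ hs).1
      show ¬ IsSolution 0 (iS ρ s) (iP ρ s) (Alg.run (iS ρ s) (iP ρ s) (k (iS ρ s v, iP ρ s v)))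
      rw [h3]
      exact hn

/-- the maps `lift F s` have degree at most `D` -/
theorem deg_lift {D E : ℕ} (hD : 1 ≤ D) (F : V D → V D) (s : Fin E → V D) (i : Fin (D + E)) :
    PDegLE D fun v => lift F s v i := by
  classical
  let R : Fin D → MvPolynomial (Fin (D + E)) (ZMod 2) := fun t =>
    ∑ j : Fin E, C (s j t) * X (Fin.natAdd D j)
  have hR : ∀ v t, eval v (R t) = lam s (fun j => v (Fin.natAdd D j)) t := by
    intro v t
    simp only [R, lam, map_sum, map_mul, eval_C, eval_X, Finset.sum_apply, Pi.smul_apply,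
      smul_eq_mul]
    exact Finset.sum_congr rfl fun j _ => mul_comm _ _
  have hRd : ∀ t, (R t).totalDegree ≤ 1 := by
    intro t
    apply totalDegree_finsetSum_le
    intro k _
    refine (totalDegree_mul _ _).trans ?_
    rw [totalDegree_C, totalDegree_X]
  let B : Fin D → MvPolynomial (Fin (D + E)) (ZMod 2) := fun t => X (Fin.castAdd E t) + R t
  have hB : ∀ v t, eval v (B t) = ((fun i => v (Fin.castAdd E i)) +
      lam s fun j => v (Fin.natAdd D j)) t := by
    intro v t
    simp only [B, map_add, eval_X, hR, Pi.add_apply]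
  have hBd : ∀ t, (B t).totalDegree ≤ 1 := by
    intro t
    refine (totalDegree_add _ _).trans (max_le ?_ (hRd t))
    rw [totalDegree_X]
  refine Fin.addCases (fun i => ?_) (fun i => ?_) i
  · refine ⟨(∑ a : V D, C (F a i) * ∏ t : Fin D, (C (1 + a t) + B t)) + R i, ?_, ?_⟩
    · refine (totalDegree_add _ _).trans (max_le ?_ ((hRd i).trans hD))
      apply totalDegree_finsetSum_le
      intro a _
      refine (totalDegree_mul _ _).trans ?_
      rw [totalDegree_C, zero_add]
      refine (totalDegree_finsetProd _ _).trans ?_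
      calc ∑ t : Fin D, (C (1 + a t) + B t).totalDegree ≤ ∑ t : Fin D, 1 := by
            apply Finset.sum_le_sum
            intro t _
            refine (totalDegree_add _ _).trans (max_le ?_ (hBd t))
            rw [totalDegree_C]
            exact Nat.zero_le _
        _ = D := by simp
    · intro v
      set b : V D := (fun i => v (Fin.castAdd E i)) + lam s fun j => v (Fin.natAdd D j) with hb
      have h1 : eval v (∑ a : V D, C (F a i) * ∏ t : Fin D, (C (1 + a t) + B t)) = F b i := by
        rw [map_sum, Finset.sum_eq_single b]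
        · rw [map_mul, eval_C, map_prod]
          have h2 : ∀ t ∈ (Finset.univ : Finset (Fin D)), eval v (C (1 + b t) + B t) = 1 := by
            intro t _
            rw [map_add, eval_C, hB, ← hb]
            have : ∀ x : ZMod 2, 1 + x + x = 1 := by decide
            exact this _
          rw [Finset.prod_congr rfl h2, Finset.prod_const_one, mul_one]
        · intro a _ hab
          rw [map_mul, map_prod]
          have h3 : ∃ t, a t ≠ b t := by
            by_contra hcon
            push Not at hcon
            exact hab (funext hcon)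
          obtain ⟨t, ht⟩ := h3
          have h4 : eval v (C (1 + a t) + B t) = 0 := by
            rw [map_add, eval_C, hB, ← hb]
            have : ∀ x y : ZMod 2, x ≠ y → 1 + x + y = 0 := by decide
            exact this _ _ ht
          rw [Finset.prod_eq_zero (Finset.mem_univ t) h4, mul_zero]
        · intro h
          exact absurd (Finset.mem_univ _) h
      rw [map_add, h1, hR]
      show _ = lift F s v (Fin.castAdd E i)
      unfold lift
      rw [Fin.append_left]
      rfl
  · refine ⟨X (Fin.natAdd D i), ?_, ?_⟩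
    · rw [totalDegree_X]
      exact hD
    · intro v
      rw [eval_X]
      show _ = lift F s v (Fin.natAdd D i)
      unfold lift
      rw [Fin.append_right]

/-- **Lower bound.**  Each query algorithm for `D + E` bits that asks at most `q` questions, where
`(q + 3)² < 2^(D + 2)`, fails on some instance `S`, `P` for which `S`, `P` and `S ∘ P` have degree at
most `D` over `F₂`. -/
theorem lower (D E q : ℕ) (hq : (q + 3) ^ 2 < 2 ^ (D + 2)) (A : Alg (V (D + E)))
    (hA : A.Within q) : ∃ S P : V (D + E) → V (D + E), P 0 = 0 ∧ S 0 ≠ 0 ∧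
      (∀ i, PDegLE D fun v => S v i) ∧ (∀ i, PDegLE D fun v => P v i) ∧
      (∀ i, PDegLE D fun v => S (P v) i) ∧ ¬ IsSolution 0 S P (A.run S P) := by
  classical
  have hD2 : 2 ≤ D := by
    by_contra hcon
    have h1 : 2 ^ (D + 2) ≤ 2 ^ 3 := Nat.pow_le_pow_right (by norm_num) (by omega)
    have h2 : 3 ^ 2 ≤ (q + 3) ^ 2 := Nat.pow_le_pow_left (by omega) 2
    omega
  have hq4 : (q + 3) ^ 2 < 4 * 2 ^ D := by
    have : 2 ^ (D + 2) = 4 * 2 ^ D := by rw [pow_add]; ring
    omega
  have hq2 : q + 3 ≤ 2 ^ D := by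
    by_contra hcon
    push Not at hcon
    have h1 : 4 ≤ 2 ^ D := by
      calc 4 = 2 ^ 2 := by norm_num
        _ ≤ 2 ^ D := Nat.pow_le_pow_right (by norm_num) hD2
    have h2 : 4 * 2 ^ D ≤ 2 ^ D * 2 ^ D := Nat.mul_le_mul_right _ h1
    have h3 : 2 ^ D * 2 ^ D ≤ (q + 3) * (q + 3) := Nat.mul_le_mul hcon.le hcon.le
    have h4 : (q + 3) ^ 2 = (q + 3) * (q + 3) := by ring
    omega
  -- the initial state
  let c : V D := fun _ => 1
  have hc0 : c ≠ 0 := by
    intro h
    have := congrFun h ⟨0, by omega⟩
    exact absurd this (by simp [c])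
  let σ : St D E :=
    { S := Function.update id 0 c
      P := Function.update id c 0
      c := c
      M := {0, c}
      I := ∅ }
  have hS0 : σ.S 0 = c := Function.update_self _ _ _
  have hSn : ∀ b, b ≠ 0 → σ.S b = b := fun b hb => Function.update_of_ne hb _ _
  have hPc : σ.P c = 0 := Function.update_self _ _ _
  have hPn : ∀ b, b ≠ c → σ.P b = b := fun b hb => Function.update_of_ne hb _ _
  have hσ : Inv σ := by
    refine ⟨hPn 0 hc0.symm, by rw [hS0]; exact hc0, by simp [σ], by simp [σ], hc0, ?_, ?_, ?_, ?_,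
      ?_, ?_⟩
    · intro b hb
      have hb' : b ≠ 0 ∧ b ≠ c := by simpa [σ, not_or] using hb
      exact ⟨hSn b hb'.1, hPn b hb'.2⟩
    · exact hSn c hc0
    · show σ.P c ≠ c
      rw [hPc]; exact hc0.symm
    · intro b hb
      by_cases h0 : b = 0
      · rw [h0, hS0, hPc]
      · rw [hSn b h0]
        exact hPn b hb
    · intro b hb
      by_cases h0 : b = c
      · rw [h0, hPc, hS0]
      · rw [hPn b h0]
        exact hSn b hb
    · intro p hp
      simp [σ] at hp
  have hcard : σ.M.card + σ.I.card = 2 := by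
    have : σ.M.card = 2 := Finset.card_pair hc0.symm
    rw [this]
    simp [σ]
  obtain ⟨ρ, s, hρ, -, hs, hn⟩ := play q A hA σ hσ (by omega) (by
    rw [hcard]
    have : 2 + q + 1 = q + 3 := by omega
    rw [this]
    exact hq4)
  refine ⟨iS ρ s, iP ρ s, ?_, ?_, fun i => deg_lift (by omega) _ _ i,
    fun i => deg_lift (by omega) _ _ i, ?_, hn⟩
  · show lift ρ.P s 0 = 0
    rw [← append_zero, lift_append, lam_zero, add_zero, add_zero, hρ.P0]
  · show lift ρ.S s 0 ≠ 0
    rw [← append_zero, lift_append, lam_zero, add_zero, add_zero]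
    intro h
    exact hρ.S0 (append_inj h)
  · intro i
    have h1 : (fun v => iS ρ s (iP ρ s v) i) = fun v => lift (fun b => ρ.S (ρ.P b)) s v i := by
      funext v
      show lift ρ.S s (lift ρ.P s v) i = _
      rw [lift_lift]
    rw [h1]
    exact deg_lift (by omega) _ _ i

/-- test the candidates one after the other -/
def search {n : ℕ} : List (V n) → Alg (V n)
  | [] => .out 0
  | v :: l => .ask v fun a => .ask a.2 fun b => if b.1 = v then search l else .out v

theorem search_within {n : ℕ} : ∀ l : List (V n), (search l).Within (2 * l.length)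
  | [] => by simp [search, Alg.Within]
  | v :: l => by
    intro a b
    show Alg.Within (2 * l.length) (if b.1 = v then search l else .out v)
    split_ifs
    · exact search_within l
    · cases l with
      | nil => simp [Alg.Within]
      | cons w l => simp [Alg.Within]

theorem within_mono {X : Type} : ∀ {q q' : ℕ} {A : Alg X}, A.Within q → q ≤ q' → A.Within q'
  | 0, 0, _, h, _ => h
  | 0, _ + 1, .out _, _, _ => by simp [Alg.Within]
  | 0, _ + 1, .ask _ _, h, _ => absurd h (by simp [Alg.Within])
  | q + 1, 0, _, _, h => absurd h (by omega)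
  | q + 1, q' + 1, .out _, _, _ => by simp [Alg.Within]
  | q + 1, q' + 1, .ask _ k, h, hq => fun a => within_mono (h a) (by omega)

theorem search_run {n : ℕ} (S P : V n → V n) : ∀ l : List (V n), (∀ v ∈ l, v ≠ 0) →
    (∃ v ∈ l, S (P v) ≠ v) → IsSolution 0 S P ((search l).run S P)
  | [], _, h => by obtain ⟨v, hv, -⟩ := h; simp at hv
  | w :: l, h0, h => by
    show IsSolution 0 S P (Alg.run S P (if S (P w) = w then search l else .out w))
    by_cases hw : S (P w) = w
    · rw [if_pos hw]
      apply search_run S P l fun v hv => h0 v (List.mem_cons_of_mem _ hv)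
      obtain ⟨v, hv, hv'⟩ := h
      rcases List.mem_cons.1 hv with h1 | h1
      · exact absurd (h1 ▸ hw) hv'
      · exact ⟨v, h1, hv'⟩
    · rw [if_neg hw]
      exact Or.inr ⟨h0 w List.mem_cons_self, hw⟩

/-- **Upper bound.**  `4 · 2^D` questions suffice for degree `D ≥ 1` and more than `D` bits. -/
theorem upper (n D : ℕ) (hD : 1 ≤ D) (hn : D < n) : ∃ A : Alg (V n), A.Within (4 * 2 ^ D) ∧
    ∀ S P : V n → V n, P 0 = 0 → S 0 ≠ 0 → (∀ i, PDegLE D fun v => S (P v) i) →
      IsSolution 0 S P (A.run S P) := by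
  classical
  let U : Submodule (ZMod 2) (V n) :=
    { carrier := {v | ∀ i : Fin n, D + 1 ≤ i.1 → v i = 0}
      add_mem' := by
        intro a b ha hb i hi
        rw [Pi.add_apply, ha i hi, hb i hi, add_zero]
      zero_mem' := fun i _ => rfl
      smul_mem' := by
        intro c x hx i hi
        rw [Pi.smul_apply, hx i hi, smul_zero] }
  let f : V (D + 1) → U := fun y => ⟨fun i => if h : i.1 < D + 1 then y ⟨i.1, h⟩ else 0, by
    intro i hi
    simp only [dif_neg (not_lt.2 hi)]⟩
  have hf : Function.Bijective f := by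
    constructor
    · intro y y' h
      funext t
      have h1 := congrFun (congrArg Subtype.val h) ⟨t.1, by omega⟩
      have ht : (t : ℕ) ≤ D := by omega
      simpa [f, ht] using h1
    · intro u
      refine ⟨fun t => u.1 ⟨t.1, by omega⟩, ?_⟩
      apply Subtype.ext
      funext i
      by_cases hi : i.1 < D + 1
      · simp [f, hi]
      · have := u.2 i (not_lt.1 hi)
        simp [f, hi, this]
  have hcard : Fintype.card U = 2 ^ (D + 1) := by
    rw [← Fintype.card_of_bijective hf, Fintype.card_fun, ZMod.card, Fintype.card_fin]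
  have hfr : Module.finrank (ZMod 2) U = D + 1 := by
    have h1 := Module.card_eq_pow_finrank (K := ZMod 2) (V := U)
    rw [hcard, ZMod.card] at h1
    exact (Nat.pow_right_injective le_rfl h1).symm
  let T : Finset (V n) := Finset.univ.filter fun v => v ∈ U ∧ v ≠ 0
  have hT : T.card ≤ 2 ^ (D + 1) := by
    have h1 : T ⊆ (Finset.univ : Finset U).image Subtype.val := by
      intro v hv
      exact mem_image.2 ⟨⟨v, (mem_filter.1 hv).2.1⟩, mem_univ _, rfl⟩
    calc T.card ≤ _ := card_le_card h1
      _ ≤ (Finset.univ : Finset U).card := card_image_le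
      _ = 2 ^ (D + 1) := by rw [card_univ, hcard]
  refine ⟨search T.toList, ?_, ?_⟩
  · refine within_mono (search_within T.toList) ?_
    rw [length_toList]
    rw [pow_succ] at hT
    omega
  · intro S P hP0 hS0 hdeg
    apply search_run
    · intro v hv
      exact (Finset.mem_filter.1 (Finset.mem_toList.1 hv)).2.2
    · obtain ⟨v, hvU, hv0, hv⟩ := subspace S P D hD hP0 hS0 hdeg U
        (lt_of_lt_of_eq (Nat.lt_succ_self D) hfr.symm)
      exact ⟨v, Finset.mem_toList.2 (Finset.mem_filter.2 ⟨Finset.mem_univ _, hvU, hv0⟩), hv⟩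

end Pool.Agent.H435R3.Eol
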